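import Mathlib
import Pool.Agent.H62.DC.MultiAll

/-!
# Maximum directed cuts of acyclic multigraphs: the bound `m / 4 + O(m ^ (3 / 5) (log m) ^ (6 / 5))`

The multigraph comes from a monotone path of integer vectors that stays close to a sphere.
-/

set_option autoImplicit false

namespace Pool.Agent.Results.MP_ac065a_co.MultiUpper

open Pool.Agent.H62.DC

theorem result : ∃ K : ℝ, ∀ m : ℕ, 2 ≤ m →
    (hMulti m : ℝ) ≤ m / 4 + K * ((m : ℝ) ^ (3 / 5 : ℝ) * (Real.log m) ^ (6 / 5 : ℝ)) :=
  multi_upper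

end Pool.Agent.Results.MP_ac065a_co.MultiUpper
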